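import Pool.Agent.H82.NTB.Core
import Pool.Agent.H65.EUC.MET
import Pool.Agent.H14.EUC.JET

set_option autoImplicit false

namespace Pool.NTC

open Pool.POLY Pool.NTB

/-- A permutation which does not increase a potential leaves it fixed. -/
theorem pot_fix {A : Type} [Fintype A] (κ : A → ℤ × ℤ) (σ : Equiv.Perm A)
    (h : ∀ a, σ a = a ∨ (κ (σ a)).1 < (κ a).1 ∨
      ((κ (σ a)).1 = (κ a).1 ∧ (κ (σ a)).2 < (κ a).2)) (a : A) : σ a = a := by
  classical
  let lt : A → A → Prop := fun b a => (κ b).1 < (κ a).1 ∨ ((κ b).1 = (κ a).1 ∧ (κ b).2 < (κ a).2)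
  have htr : ∀ a b c, lt a b → lt b c → lt a c := by
    intro a b c h1 h2
    rcases h1 with h1 | ⟨h1, h1'⟩ <;> rcases h2 with h2 | ⟨h2, h2'⟩
    · exact Or.inl (h1.trans h2)
    · exact Or.inl (by omega)
    · exact Or.inl (by omega)
    · exact Or.inr ⟨by omega, by omega⟩
  have hirr : ∀ a, ¬ lt a a := by
    intro a h1
    rcases h1 with h1 | ⟨_, h1⟩ <;> exact lt_irrefl _ h1
  let f : A → ℕ := fun a => (Finset.univ.filter fun b => lt b a).card
  have hf : ∀ a b, lt a b → f a < f b := by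
    intro a b hab
    refine Finset.card_lt_card ?_
    rw [Finset.ssubset_iff_of_subset]
    · exact ⟨a, by simp [hab], by simp [hirr]⟩
    · intro c hc
      simp only [Finset.mem_filter, Finset.mem_univ, true_and] at hc ⊢
      exact htr _ _ _ hc hab
  have hle : ∀ a ∈ Finset.univ, f (σ a) ≤ f a := by
    intro a _
    rcases h a with h1 | h1
    · rw [h1]
    · exact (hf _ _ h1).le
  have hsum : ∑ a, f (σ a) = ∑ a, f a := Equiv.sum_comp σ f
  have heq := (Finset.sum_eq_sum_iff_of_le hle).mp hsum a (Finset.mem_univ a)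
  rcases h a with h1 | h1
  · exact h1
  · exact absurd heq (hf _ _ h1).ne

variable {A P : Type} [PartialOrder P] {dM dW : A → A → ℝ} {π : Equiv.Perm A} {el : A → P}

/-- With potentials, all stable matchings lie between the identity and `π`. -/
theorem all_btw [Fintype A] (h : Cond dM dW π el) (κ κ' : A → ℤ × ℤ)
    (hκ : ∀ a w, dM a w < dM a a → (κ w).1 < (κ a).1 ∨ ((κ w).1 = (κ a).1 ∧ (κ w).2 < (κ a).2))
    (hκ' : ∀ w a, dW w a < dW w (π.symm w) → (κ' a).1 < (κ' (π.symm w)).1 ∨
      ((κ' a).1 = (κ' (π.symm w)).1 ∧ (κ' a).2 < (κ' (π.symm w)).2))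
    (σ : Equiv.Perm A) (hσ : St dM dW σ) : WL dW 1 σ ∧ WL dW σ π := by
  classical
  have st1 : St dM dW (1 : Equiv.Perm A) := by
    intro a w ⟨h3, h4⟩
    change dM a w < dM a a at h3
    change dW w a < dW w w at h4
    rcases h.c3 a w (h3.le.trans (h.c1 a).le) h4.le with h5 | h5 | ⟨h5, h6, h7⟩
    · rw [h5] at h3; exact lt_irrefl _ h3
    · rw [h5] at h3; exact absurd h3 (not_lt.mpr (h.c1 a).le)
    · exact absurd h3 (not_lt.mpr h6.le)
  have stπ : St dM dW π := by
    intro a w ⟨h3, h4⟩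
    rcases h.c3 a w h3.le (h4.le.trans (h.c2 w).le) with h5 | h5 | ⟨h5, h6, h7⟩
    · rw [← h5] at h4
      exact absurd h4 (not_lt.mpr (h.c2 w).le)
    · rw [h5] at h3; exact lt_irrefl _ h3
    · exact absurd h4 (not_lt.mpr h7.le)
  constructor
  · obtain ⟨ρ, hρ, hρ1, hρ2⟩ := Pool.EUC.met_thm A dM dW h.iM h.iW 1 σ st1 hσ
    have hid : ∀ a, ρ a = a := by
      intro a
      refine pot_fix κ ρ ?_ a
      intro b
      by_cases hb : ρ b = b
      · exact Or.inl hb
      · right
        apply hκ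
        have h1 : dM b (ρ b) ≤ dM b b := by
          rw [hρ2 b]; exact min_le_left _ _
        exact lt_of_le_of_ne h1 fun h2 => hb (h.iM b h2)
    intro w
    have h1 : ρ.symm w = w := by rw [Equiv.symm_apply_eq, hid]
    have h2 := hρ1 w
    rw [h1] at h2
    change dW w (σ.symm w) ≤ dW w w
    rw [h2]
    exact le_max_right _ _
  · obtain ⟨ρ, hρ, hρ1, hρ2⟩ := Pool.EUC.jet_thm Pool.EUC.met_thm A dM dW h.iM h.iW σ π hσ stπ
    have hid : ∀ b, (ρ.symm * π) b = b := by
      intro a
      refine pot_fix κ' (ρ.symm * π) ?_ a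
      intro b
      rw [Equiv.Perm.mul_apply]
      by_cases hb : ρ.symm (π b) = b
      · exact Or.inl hb
      · right
        have h1 : dW (π b) (ρ.symm (π b)) ≤ dW (π b) (π.symm (π b)) := by
          rw [hρ1 (π b)]; exact min_le_right _ _
        have h2 : ρ.symm (π b) ≠ π.symm (π b) := by
          rw [Equiv.symm_apply_apply]; exact hb
        have h3 := hκ' (π b) (ρ.symm (π b)) (lt_of_le_of_ne h1 fun h4 => h2 (h.iW _ h4))
        rwa [Equiv.symm_apply_apply] at h3
    intro w
    have h1 : ρ.symm w = π.symm w := by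
      have h2 := hid (π.symm w)
      rwa [Equiv.Perm.mul_apply, Equiv.apply_symm_apply] at h2
    have h2 := hρ1 w
    rw [h1] at h2
    rw [h2]
    exact min_le_left _ _

end Pool.NTC
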