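import Pool.Agent.H82.NTC.Stmts

/-!
# Board `ntc`: two counting rows
-/

set_option autoImplicit false

namespace Pool.NTC

open Pool.NET

/-- RFC: the refined node set has at most seven nodes for every node.  (`Rf M` is contained in the
image of `M ×ˢ (seven offsets)`: `(2i, 4j-1), (2i, 4j), (2i, 4j+1), (2i+1, 4j), ..., (2i+1, 4j+3)`.) -/
def RFC_S : Prop := ∀ M : Set Nd, M.Finite → (Rf M).ncard ≤ 7 * M.ncard

/-- ACD: at most eight before corners for every node.  (Injection to `(Σ z, N z) × Fin 8`: `R` and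
`J2` have the same image, `R` needs `¬ h v` and `J2` needs `h v`; `L` and `J4` too.) -/
def ACD_S : Prop := ∀ (P : Type) [Fintype P] (N : P → Set Nd) (h : P → Nd → Prop) (u : Nd → Prop),
  (∀ z, (N z).Finite) →
  Nat.card {a : P × (Nd × Ke) // OK2 (N a.1) (h a.1) u a.2} ≤ 8 * ∑ z, (N z).ncard

end Pool.NTC
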