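import Pool.Agent.H82.NTC.Stmts

/-!
# Bounds for the coordinates
-/

set_option autoImplicit false

namespace Pool.NTC

open Pool.NET

theorem fx_abs (p : Par) (e g R : ℤ) (hok : POk p e g) (b : Nd × Ke)
    (hb : |b.1.1| ≤ R) : |fx p e g b| ≤ p.S * (R + 1) := by
  obtain ⟨⟨c, r⟩, k⟩ := b
  have h0 := abs_le.mp hb
  have h1 := hok.q0
  have h2 := hok.gq
  have h3 := hok.gW
  have h4 := hok.We
  have h5 := hok.eM
  have h6 := hok.MS
  have hS : 0 < p.S := by linarith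
  have h7 : p.S * c ≤ p.S * R := mul_le_mul_of_nonneg_left h0.2 hS.le
  have h8 : -(p.S * R) ≤ p.S * c := by
    have := mul_le_mul_of_nonneg_left h0.1 hS.le
    linarith
  rw [mul_add, mul_one, abs_le]
  cases k <;> simp only [fx] <;> constructor <;> linarith

theorem fy_abs (p : Par) (e g R : ℤ) (hok : POk p e g) (b : Nd × Ke)
    (hb : |b.1.2| ≤ R) : |fy p e b| ≤ p.S * (R + 1) := by
  obtain ⟨⟨c, r⟩, k⟩ := b
  have h0 := abs_le.mp hb
  have h1 := hok.q0
  have h2 := hok.gq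
  have h3 := hok.gW
  have h4 := hok.We
  have h5 := hok.eM
  have h6 := hok.MS
  have hS : 0 < p.S := by linarith
  have h7 : p.S * r ≤ p.S * R := mul_le_mul_of_nonneg_left h0.2 hS.le
  have h8 : -(p.S * R) ≤ p.S * r := by
    have := mul_le_mul_of_nonneg_left h0.1 hS.le
    linarith
  rw [mul_add, mul_one, abs_le]
  cases k <;> simp only [fy] <;> constructor <;> linarith

theorem pos_abs (p : Par) (e g R : ℤ) (hok : POk p e g) (hR : 0 ≤ R) (f t : ℤ)
    (hf : |f| ≤ p.S * (R + 1)) (ht : 0 ≤ t ∧ 8 * t < p.q) : |4 * (f + t)| ≤ 5 * (p.S * (R + 1)) := by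
  have h0 := abs_le.mp hf
  have h1 := hok.q0
  have h2 := hok.gq
  have h3 := hok.gW
  have h4 := hok.We
  have h5 := hok.eM
  have h6 := hok.MS
  have hS : 0 < p.S := by linarith
  have h7 : p.S ≤ p.S * (R + 1) := by nlinarith
  rw [abs_le]
  constructor <;> linarith [h0.1, h0.2, ht.1, ht.2]

theorem prM_abs (p : Par) (e g R : ℤ) (h u : Nd → Prop) (hok : POk p e g) (hR : 0 ≤ R)
    (b : Nd × Ke) (hb : |b.1.1| ≤ R) (hb' : |(nx2 h u b).1.1| ≤ R) :
    |prM p e g h u b| ≤ 5 * (p.S * (R + 1)) := by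
  have h0 := abs_le.mp (fx_abs p e g R hok b hb)
  have h0' := abs_le.mp (fx_abs p e g R hok _ hb')
  have h1 := hok.q0
  have h2 := hok.gq
  have h3 := hok.gW
  have h4 := hok.We
  have h5 := hok.eM
  have h6 := hok.MS
  have hS : 0 < p.S := by linarith
  have h7 : p.S ≤ p.S * (R + 1) := by nlinarith
  obtain ⟨v, k⟩ := b
  rw [abs_le]
  cases k <;> simp only [prM] <;> constructor <;> linarith [h0.1, h0.2, h0'.1, h0'.2]

theorem prW_abs (p : Par) (e g R : ℤ) (h u : Nd → Prop) (t : Nd × Ke → ℤ) (hok : POk p e g)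
    (hR : 0 ≤ R) (ht : ∀ b, 0 ≤ t b ∧ 8 * t b < p.q)
    (b : Nd × Ke) (hb : |b.1.2| ≤ R) (hb' : |(pv2 h u b).1.2| ≤ R) :
    |prW p e h u t b| ≤ 5 * (p.S * (R + 1)) := by
  have h0 := abs_le.mp (fy_abs p e g R hok b hb)
  have h0' := abs_le.mp (fy_abs p e g R hok _ hb')
  have ht' := ht (pv2 h u b)
  have h1 := hok.q0
  have h2 := hok.gq
  have h3 := hok.gW
  have h4 := hok.We
  have h5 := hok.eM
  have h6 := hok.MS
  have hS : 0 < p.S := by linarith
  have h7 : p.S ≤ p.S * (R + 1) := by nlinarith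
  have h8 := abs_le.mp hb
  have h9 : p.S * b.1.2 ≤ p.S * R := mul_le_mul_of_nonneg_left h8.2 hS.le
  have h10 : -(p.S * R) ≤ p.S * b.1.2 := by
    have := mul_le_mul_of_nonneg_left h8.1 hS.le
    linarith
  have h11 : p.S * (R + 1) = p.S * R + p.S := by ring
  obtain ⟨v, k⟩ := b
  rw [abs_le]
  cases k <;> simp only [prW] <;> constructor <;>
    linarith [h0.1, h0.2, h0'.1, h0'.2, ht'.1, ht'.2, h9, h10]

/-- PRM with a bound for the distance of the columns. -/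
theorem prm2_thm (P : Type) [Fintype P] [PartialOrder P] : ∃ (p : Par) (e g : P → ℤ),
    p.q = 1 ∧ p.S = 1200 * ((Fintype.card P : ℤ) + 1) * 4 ^ Fintype.card P ∧ (∀ z, POk p (e z) (g z)) ∧
    (∀ z z', z < z' → 4 * e z' ≤ e z ∧ g z + 10 * p.q ≤ g z') ∧
    ∀ z z', z ≠ z' → (4 * e z ≤ e z' ∧ g z' + 10 * p.q ≤ g z) ∨
      (4 * e z' ≤ e z ∧ g z + 10 * p.q ≤ g z') := by
  classical
  obtain ⟨ρ, hi, hm, hK⟩ : ∃ ρ : P → ℕ, Function.Injective ρ ∧ (∀ p q, p < q → ρ p < ρ q) ∧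
      ∀ p, ρ p < Fintype.card P := by
    have hF : Fintype (LinearExtension P) := inferInstanceAs (Fintype P)
    let en : Fin (Fintype.card (LinearExtension P)) ≃o LinearExtension P := monoEquivOfFin _ rfl
    have hc : Fintype.card (LinearExtension P) = Fintype.card P :=
      Fintype.card_congr (Equiv.refl P)
    refine ⟨fun p => (en.symm (toLinearExtension p)).1, ?_, ?_, ?_⟩
    · intro a b h
      have h1 : en.symm (toLinearExtension a) = en.symm (toLinearExtension b) := Fin.ext h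
      exact en.symm.injective h1
    · intro a b h
      have h1 : toLinearExtension a ≤ toLinearExtension b := toLinearExtension.monotone h.le
      have h2 : toLinearExtension a ≠ toLinearExtension b := fun h3 => h.ne h3
      have h3 : en.symm (toLinearExtension a) < en.symm (toLinearExtension b) :=
        en.symm.lt_iff_lt.mpr (lt_of_le_of_ne h1 h2)
      exact h3
    · intro a
      change (en.symm (toLinearExtension a)).1 < Fintype.card P
      rw [← hc]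
      exact (en.symm (toLinearExtension a)).2
  generalize Fintype.card P = K at hK
  have hE0 : 0 < 80 * ((K : ℤ) + 1) := by positivity
  have key : ∀ z z', ρ z < ρ z' → 4 * (80 * ((K : ℤ) + 1) * 4 ^ (K - ρ z')) ≤
      80 * ((K : ℤ) + 1) * 4 ^ (K - ρ z) ∧
      10 * ((ρ z : ℤ) + 1) + 10 * 1 ≤ 10 * ((ρ z' : ℤ) + 1) := by
    intro z z' h
    constructor
    · have h1 : (4 : ℤ) ^ (K - ρ z' + 1) ≤ 4 ^ (K - ρ z) :=
        pow_le_pow_right₀ (by norm_num) (by have := hK z'; omega)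
      have h2 := mul_le_mul_of_nonneg_left h1 hE0.le
      calc 4 * (80 * ((K : ℤ) + 1) * 4 ^ (K - ρ z')) =
          80 * ((K : ℤ) + 1) * 4 ^ (K - ρ z' + 1) := by ring
        _ ≤ _ := h2
    · have h1 : (ρ z : ℤ) + 1 ≤ ρ z' := by exact_mod_cast h
      linarith
  refine ⟨⟨1, 10 * ((K : ℤ) + 1), 5 * (80 * ((K : ℤ) + 1) * 4 ^ K),
    1200 * ((K : ℤ) + 1) * 4 ^ K⟩, fun z => 80 * ((K : ℤ) + 1) * 4 ^ (K - ρ z),
    fun z => 10 * ((ρ z : ℤ) + 1), rfl, rfl, ?_, fun z z' h => key z z' (hm z z' h), ?_⟩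
  · intro z
    have hz : (ρ z : ℤ) + 1 ≤ K := by exact_mod_cast hK z
    have h1 : (1 : ℤ) ≤ 4 ^ (K - ρ z) := one_le_pow₀ (by norm_num)
    have h2 : (4 : ℤ) ^ (K - ρ z) ≤ 4 ^ K := pow_le_pow_right₀ (by norm_num) (Nat.sub_le _ _)
    refine ⟨one_pos, ?_, ?_, ?_, ?_, ?_⟩
    · change 10 * 1 ≤ 10 * ((ρ z : ℤ) + 1)
      have : (0 : ℤ) ≤ ρ z := Int.natCast_nonneg _
      linarith
    · change 10 * ((ρ z : ℤ) + 1) + 10 * 1 ≤ 10 * ((K : ℤ) + 1)
      linarith
    · change 8 * (10 * ((K : ℤ) + 1)) ≤ 80 * ((K : ℤ) + 1) * 4 ^ (K - ρ z)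
      nlinarith
    · change 5 * (80 * ((K : ℤ) + 1) * 4 ^ (K - ρ z)) ≤ 5 * (80 * ((K : ℤ) + 1) * 4 ^ K)
      nlinarith
    · change 3 * (5 * (80 * ((K : ℤ) + 1) * 4 ^ K)) ≤ 1200 * ((K : ℤ) + 1) * 4 ^ K
      linarith
  · intro z z' h
    have h1 : ρ z ≠ ρ z' := fun h2 => h (hi h2)
    rcases lt_or_gt_of_ne h1 with h2 | h2
    · exact Or.inr (key z z' h2)
    · exact Or.inl (key z' z h2)

end Pool.NTC
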