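import Pool.Agent.H82.NTC.ASM
import Pool.Agent.H82.NTC.Bd
import Pool.Agent.H82.NTC.Stmts2
import Pool.Agent.H82.NTC.Core2
import Pool.Agent.H82.NET.ASM
import Pool.Agent.H82.POLY.Fin

set_option autoImplicit false

namespace Pool.NTC

open Pool.NET Pool.POLY Pool.NTB

/-- From a system to a 1-Euclidean instance. -/
theorem sys3b_thm (hACD : ACD_S) (hPM : ∀ k, PMk k) (hPW : ∀ k, PWk k) (hPIN : PIN2_S) (hSAM : SAM2_S) (hE1 : E1_S) (hE2 : E2_S)
    (hIVM : IVM_S) (hIVW : IVW_S) (hXSA : ∀ k, XSA k) (hXDF : ∀ k, XDF k) (hXMU : XMU_S)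
    (P : Type) [Fintype P] [PartialOrder P] (Z : Sys P) (R : ℤ) (hR : 0 ≤ R)
    (hRN : ∀ z, ∀ v ∈ Z.N z, |v.1| ≤ R ∧ |v.2| ≤ R) :
    ∃ (A : Type) (_ : Fintype A) (pM qM pW qW : A → ℤ) (π : Equiv.Perm A) (el : A → P),
      Cond (fun a w => ((|pM a - qW w| : ℤ) : ℝ)) (fun w a => ((|pW w - qM a| : ℤ) : ℝ)) π el ∧
      (∀ σ : Equiv.Perm A, St (fun a w => ((|pM a - qW w| : ℤ) : ℝ))
        (fun w a => ((|pW w - qM a| : ℤ) : ℝ)) σ →
        WL (fun w a => ((|pW w - qM a| : ℤ) : ℝ)) 1 σ ∧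
        WL (fun w a => ((|pW w - qM a| : ℤ) : ℝ)) σ π) ∧
      Nat.card A ≤ 8 * ∑ z, (Z.N z).ncard ∧
      ∀ B : ℤ, B = 5 * ((8 * (Nat.card A : ℤ) + 9) *
        (1200 * ((Fintype.card P : ℤ) + 1) * 4 ^ Fintype.card P) * (R + 1)) →
        ∀ a, |pM a| ≤ B ∧ |qM a| ≤ B ∧ |pW a| ≤ B ∧ |qW a| ≤ B := by
  classical
  let A : Type := {a : P × (Nd × Ke) // OK2 (Z.N a.1) (Z.h a.1) Z.u a.2}
  have hOKN : ∀ (z : P) (b : Nd × Ke), OK2 (Z.N z) (Z.h z) Z.u b → b.1 ∈ Z.N z := by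
    intro z b hb
    obtain ⟨v, k⟩ := b
    cases k
    · exact hb
    · exact hb
    · exact hb.1
    · exact hb.1
    · exact hb.1
    · exact hb.1
    · exact hb
    · exact hb.1
    · exact hb
    · exact hb.1
  have hAfin : Finite A := by
    have hKd : Finite Ke := by
      refine Finite.of_surjective (fun i : Fin 10 => match i with
        | 0 => Ke.NW | 1 => Ke.SE | 2 => Ke.R | 3 => Ke.L | 4 => Ke.T | 5 => Ke.B
        | 6 => Ke.J1 | 7 => Ke.J2 | 8 => Ke.J3 | 9 => Ke.J4) ?_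
      intro k
      cases k
      · exact ⟨0, rfl⟩
      · exact ⟨1, rfl⟩
      · exact ⟨2, rfl⟩
      · exact ⟨3, rfl⟩
      · exact ⟨4, rfl⟩
      · exact ⟨5, rfl⟩
      · exact ⟨6, rfl⟩
      · exact ⟨7, rfl⟩
      · exact ⟨8, rfl⟩
      · exact ⟨9, rfl⟩
    have hU : (⋃ z, Z.N z).Finite := Set.finite_iUnion Z.fin
    have : Finite (⋃ z, Z.N z) := hU
    refine Finite.of_injective (fun a : A =>
      ((a.1.1, (⟨a.1.2.1, Set.mem_iUnion.mpr ⟨a.1.1, hOKN _ _ a.2⟩⟩ : (⋃ z, Z.N z : Set Nd)),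
        a.1.2.2) : P × (⋃ z, Z.N z : Set Nd) × Ke)) ?_
    intro a b hab
    simp only [Prod.mk.injEq, Subtype.mk.injEq] at hab
    exact Subtype.ext (Prod.ext hab.1 (Prod.ext hab.2.1 hab.2.2))
  have hFA : Fintype A := Fintype.ofFinite A
  have hpin := fun z => hPIN (Z.N z) (Z.h z) Z.u (Z.hn z) (Z.un z)
  let π : Equiv.Perm A :=
    { toFun := fun a => ⟨(a.1.1, nx2 (Z.h a.1.1) Z.u a.1.2), (hpin a.1.1).1 _ a.2⟩
      invFun := fun a => ⟨(a.1.1, pv2 (Z.h a.1.1) Z.u a.1.2), (hpin a.1.1).2.1 _ a.2⟩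
      left_inv := fun a => Subtype.ext (Prod.ext rfl ((hpin a.1.1).2.2.1 _ a.2))
      right_inv := fun a => Subtype.ext (Prod.ext rfl ((hpin a.1.1).2.2.2 _ a.2)) }
  -- parameters
  obtain ⟨p0, e0, g0, hq0, hS0, hok0, hlt0, hne0⟩ := prm2_thm P
  let en : A ≃ Fin (Fintype.card A) := Fintype.equivFin A
  let D : ℤ := 8 * (Fintype.card A : ℤ) + 9
  have hD : 0 < D := by change 0 < 8 * (Fintype.card A : ℤ) + 9; positivity
  let p : Par := p0.sc D
  let e : P → ℤ := fun z => D * e0 z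
  let g : P → ℤ := fun z => D * g0 z
  have hok : ∀ z, POk p (e z) (g z) := fun z => (hok0 z).sc D hD
  have hpq : p.q = D * p0.q := rfl
  have hDq : D ≤ p.q := by
    rw [hpq]
    have : 0 < p0.q := by omega
    nlinarith
  have hlt : ∀ z z', z < z' → 4 * e z' ≤ e z ∧ g z + 10 * p.q ≤ g z' := by
    intro z z' h
    obtain ⟨h1, h2⟩ := hlt0 z z' h
    have h3 := mul_le_mul_of_nonneg_left h1 hD.le
    have h4 := mul_le_mul_of_nonneg_left h2 hD.le
    constructor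
    · change 4 * (D * e0 z') ≤ D * e0 z
      linarith
    · rw [hpq]
      change D * g0 z + 10 * (D * p0.q) ≤ D * g0 z'
      linarith
  have hne : ∀ z z', z ≠ z' → (4 * e z ≤ e z' ∧ g z' + 10 * p.q ≤ g z) ∨
      (4 * e z' ≤ e z ∧ g z + 10 * p.q ≤ g z') := by
    intro z z' h
    have key : ∀ z z', (4 * e0 z ≤ e0 z' ∧ g0 z' + 10 * p0.q ≤ g0 z) →
        (4 * e z ≤ e z' ∧ g z' + 10 * p.q ≤ g z) := by
      rintro z z' ⟨h1, h2⟩
      have h3 := mul_le_mul_of_nonneg_left h1 hD.le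
      have h4 := mul_le_mul_of_nonneg_left h2 hD.le
      constructor
      · change 4 * (D * e0 z) ≤ D * e0 z'
        linarith
      · rw [hpq]
        change D * g0 z' + 10 * (D * p0.q) ≤ D * g0 z
        linarith
    rcases hne0 z z' h with h1 | h1
    · exact Or.inl (key z z' h1)
    · exact Or.inr (key z' z h1)
  -- ties
  let tf : P → Nd × Ke → ℤ := fun z b =>
    if hb : OK2 (Z.N z) (Z.h z) Z.u b then ((en ⟨(z, b), hb⟩).1 : ℤ) else 0
  have htf : ∀ z b, 0 ≤ tf z b ∧ 8 * tf z b < D := by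
    intro z b
    by_cases hb : OK2 (Z.N z) (Z.h z) Z.u b
    · have h1 : tf z b = ((en ⟨(z, b), hb⟩).1 : ℤ) := dif_pos hb
      have h2 := (en ⟨(z, b), hb⟩).2
      rw [h1]
      change 0 ≤ _ ∧ _ < 8 * (Fintype.card A : ℤ) + 9
      constructor <;> omega
    · have h1 : tf z b = 0 := dif_neg hb
      rw [h1]
      exact ⟨le_rfl, by omega⟩
  have htq : ∀ z b, 0 ≤ tf z b ∧ 8 * tf z b < p.q := fun z b =>
    ⟨(htf z b).1, (htf z b).2.trans_le hDq⟩
  have htA : ∀ a : A, tf a.1.1 a.1.2 = ((en a).1 : ℤ) := fun a => dif_pos a.2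
  have htinj : ∀ a b : A, tf a.1.1 a.1.2 = tf b.1.1 b.1.2 → a = b := by
    intro a b h
    rw [htA, htA] at h
    exact en.injective (Fin.ext (by exact_mod_cast h))
  let X : A → ℤ := fun a => fx p (e a.1.1) (g a.1.1) a.1.2 + tf a.1.1 a.1.2
  let Y : A → ℤ := fun a => fy p (e a.1.1) a.1.2 + tf a.1.1 a.1.2
  have hDinj : ∀ (m m' : ℤ) (a b : A), D * m + tf a.1.1 a.1.2 = D * m' + tf b.1.1 b.1.2 →
      a = b := by
    intro m m' a b h
    apply htinj
    have h1 := htf a.1.1 a.1.2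
    have h2 := htf b.1.1 b.1.2
    rcases lt_trichotomy m m' with h3 | h3 | h3
    · exfalso
      have : D * (m + 1) ≤ D * m' := mul_le_mul_of_nonneg_left (by omega) hD.le
      have : D * (m + 1) = D * m + D := by ring
      omega
    · rw [h3] at h; omega
    · exfalso
      have : D * (m' + 1) ≤ D * m := mul_le_mul_of_nonneg_left (by omega) hD.le
      have : D * (m' + 1) = D * m' + D := by ring
      omega
  have hX : Function.Injective X := by
    intro a b h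
    have h1 : D * fx p0 (e0 a.1.1) (g0 a.1.1) a.1.2 + tf a.1.1 a.1.2 =
        D * fx p0 (e0 b.1.1) (g0 b.1.1) b.1.2 + tf b.1.1 b.1.2 := by
      rw [← fx_sc, ← fx_sc]; exact h
    exact hDinj _ _ a b h1
  have hY : Function.Injective Y := by
    intro a b h
    have h1 : D * fy p0 (e0 a.1.1) a.1.2 + tf a.1.1 a.1.2 =
        D * fy p0 (e0 b.1.1) b.1.2 + tf b.1.1 b.1.2 := by
      rw [← fy_sc, ← fy_sc]; exact h
    exact hDinj _ _ a b h1
  have hsame : ∀ (z : P) (a : A), a.1.1 = z → ∀ b : A, b.1.1 = z → π.SameCycle a b := by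
    intro z a ha b hb
    let C : Set (Nd × Ke) := {c | ∃ hc : OK2 (Z.N z) (Z.h z) Z.u c, π.SameCycle a ⟨(z, c), hc⟩}
    have hC : ∀ c, OK2 (Z.N z) (Z.h z) Z.u c → (c ∈ C ↔ nx2 (Z.h z) Z.u c ∈ C) := by
      intro c hc
      have h1 : OK2 (Z.N z) (Z.h z) Z.u (nx2 (Z.h z) Z.u c) := (hpin z).1 _ hc
      have h2 : π ⟨(z, c), hc⟩ = ⟨(z, nx2 (Z.h z) Z.u c), h1⟩ := rfl
      constructor
      · rintro ⟨_, h3⟩
        refine ⟨h1, ?_⟩
        rw [← h2]
        exact Equiv.Perm.sameCycle_apply_right.mpr h3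
      · rintro ⟨_, h3⟩
        refine ⟨hc, ?_⟩
        rw [← h2] at h3
        exact Equiv.Perm.sameCycle_apply_right.mp h3
    obtain ⟨⟨z1, a1⟩, ha1⟩ := a
    obtain ⟨⟨z2, b1⟩, hb1⟩ := b
    change z1 = z at ha
    change z2 = z at hb
    subst ha
    subst hb
    have h3 := hSAM (Z.N z2) (Z.h z2) Z.u (Z.fin z2) (Z.hn z2) (Z.un z2) (Z.tr z2) C hC a1 b1 ha1 hb1
    exact (h3.mp ⟨ha1, Equiv.Perm.SameCycle.refl _ _⟩).2
  have hpow : ∀ (n : ℕ) (a : A), ((π ^ n) a).1.1 = a.1.1 := by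
    intro n
    induction n with
    | zero => intro a; rfl
    | succ n ih =>
      intro a
      rw [pow_succ, Equiv.Perm.mul_apply, ih]
      rfl
  let pM : A → ℤ := fun a => prM p (e a.1.1) (g a.1.1) (Z.h a.1.1) Z.u a.1.2
  let qW : A → ℤ := fun a => 4 * X a
  let pW : A → ℤ := fun a => prW p (e a.1.1) (Z.h a.1.1) Z.u (tf a.1.1) a.1.2
  let qM : A → ℤ := fun a => 4 * Y a
  have hc1 : ∀ a, |pM a - qW a| < |pM a - qW (π a)| := by
    intro a
    exact hE1 p (e a.1.1) (g a.1.1) (Z.h a.1.1) Z.u (hok _) a.1.2 _ _ (htq _ _).1 (htq _ _).2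
      (htq _ _).1 (htq _ _).2
  have hc1n : ∀ a, π a ≠ a := by
    intro a hh
    have := hc1 a
    rw [hh] at this
    exact lt_irrefl _ this
  have hc1n' : ∀ a, π.symm a ≠ a := by
    intro a hh
    exact hc1n a (by conv_lhs => rw [← hh, Equiv.apply_symm_apply])
  have hc2 : ∀ w, |pW w - qM (π.symm w)| < |pW w - qM w| := by
    intro w
    refine hE2 p (e w.1.1) (g w.1.1) (Z.h w.1.1) Z.u (hok _) (tf w.1.1) (htq _) w.1.2 ?_
    intro h
    exact hc1n' w (hY h)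
  have hCond : Cond (fun a w => ((|pM a - qW w| : ℤ) : ℝ)) (fun w a => ((|pW w - qM a| : ℤ) : ℝ))
      π (fun a => a.1.1) := by
   refine ⟨?_, ?_, ?_, ?_, ?_, ?_, ?_, ?_⟩
   · intro a b c h
     have h1 : |pM a - 4 * X b| = |pM a - 4 * X c| := by
       have h0 : ((|pM a - 4 * X b| : ℤ) : ℝ) = ((|pM a - 4 * X c| : ℤ) : ℝ) := h
       exact_mod_cast h0
     exact hX (abs_inj (prM_odd _ _ _ _ _ _) h1)
   · intro a b c h
     have h1 : |pW a - 4 * Y b| = |pW a - 4 * Y c| := by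
       have h0 : ((|pW a - 4 * Y b| : ℤ) : ℝ) = ((|pW a - 4 * Y c| : ℤ) : ℝ) := h
       exact_mod_cast h0
     exact hY (abs_inj (prW_odd _ _ _ _ _ _) h1)
   · intro a
     exact_mod_cast hc1 a
   · intro w
     exact_mod_cast hc2 w
   · intro a w h1 h2
     have h1' : |pM a - qW w| ≤ |pM a - qW (π a)| := by exact_mod_cast h1
     have h2' : |pW w - qM a| ≤ |pW w - qM w| := by exact_mod_cast h2
     have h3 := hIVM p (e a.1.1) (g a.1.1) (Z.h a.1.1) Z.u (hok _) a.1.2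
       (fx p (e w.1.1) (g w.1.1) w.1.2) (tf w.1.1 w.1.2) (tf (π a).1.1 (π a).1.2)
       (htq _ _).1 (htq _ _).2 (htq _ _).1 (htq _ _).2 h1'
     have h4 := hIVW p (e w.1.1) (g w.1.1) (Z.h w.1.1) Z.u (hok _) (tf w.1.1) (htq _) w.1.2
       (fy p (e a.1.1) a.1.2) (tf a.1.1 a.1.2) (htq _ _).1 (htq _ _).2 h2'
     by_cases hz : a.1.1 = w.1.1
     · obtain ⟨⟨z, ⟨v, k⟩⟩, ha⟩ := a
       obtain ⟨⟨z', w1⟩, hw⟩ := w
       change z = z' at hz
       subst hz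
       rcases hXSA k p (e z) (g z) (Z.N z) (Z.h z) Z.u (hok z) (Z.hn z) (Z.un z) v w1 ha hw
         h3.1 h3.2 h4.1 h4.2 with h5 | h5
       · left
         exact Subtype.ext (Prod.ext rfl h5)
       · right; left
         exact Subtype.ext (Prod.ext rfl h5)
     · right; right
       obtain ⟨h5, ⟨n, hn, hn'⟩, h6, h7⟩ := hXDF a.1.2.2 p (e a.1.1) (g a.1.1) (e w.1.1) (g w.1.1)
         (Z.N a.1.1) (Z.N w.1.1) (Z.h a.1.1) (Z.h w.1.1) Z.u (hok _) (hok _) (Z.hn _) (Z.hn _)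
         (Z.un _) (Z.un _) (hne _ _ hz) a.1.2.1 w.1.2 a.2 w.2 h3.1 h3.2 h4.1 h4.2
       refine ⟨?_, ?_, ?_⟩
       · have h8 : a.1.1 ≤ w.1.1 ∨ w.1.1 ≤ a.1.1 := by
           by_contra h9
           rw [not_or] at h9
           exact Set.disjoint_left.mp (Z.dis _ _ h9.1 h9.2) hn hn'
         rcases h8 with h8 | h8
         · exfalso
           have h9 := (hlt _ _ (lt_of_le_of_ne h8 hz)).1
           have h10 := (hok a.1.1)
           have h11 := h10.q0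
           have h12 := h10.gq
           have h13 := h10.gW
           have h14 := h10.We
           have h15 := h5.1
           omega
         · exact lt_of_le_of_ne h8 fun h => hz h.symm
       · have h8 : |pM a - qW a| < |pM a - qW w| := by
           have h9 := htq a.1.1 a.1.2
           have h10 := htq w.1.1 w.1.2
           have h11 : |prM p (e a.1.1) (g a.1.1) (Z.h a.1.1) Z.u a.1.2 -
               4 * fx p (e a.1.1) (g a.1.1) a.1.2| + 2 * p.q ≤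
               |prM p (e a.1.1) (g a.1.1) (Z.h a.1.1) Z.u a.1.2 -
               4 * fx p (e w.1.1) (g w.1.1) w.1.2| := h6
           change |prM p (e a.1.1) (g a.1.1) (Z.h a.1.1) Z.u a.1.2 -
               4 * (fx p (e a.1.1) (g a.1.1) a.1.2 + tf a.1.1 a.1.2)| <
               |prM p (e a.1.1) (g a.1.1) (Z.h a.1.1) Z.u a.1.2 -
               4 * (fx p (e w.1.1) (g w.1.1) w.1.2 + tf w.1.1 w.1.2)|
           generalize prM p (e a.1.1) (g a.1.1) (Z.h a.1.1) Z.u a.1.2 = x1 at *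
           generalize fx p (e a.1.1) (g a.1.1) a.1.2 = x2 at *
           generalize fx p (e w.1.1) (g w.1.1) w.1.2 = x3 at *
           generalize tf a.1.1 a.1.2 = x4 at *
           generalize tf w.1.1 w.1.2 = x5 at *
           have hq := (hok a.1.1).q0
           rcases abs_cases (x1 - 4 * x2) with ⟨e1, _⟩ | ⟨e1, _⟩ <;>
           rcases abs_cases (x1 - 4 * x3) with ⟨e2, _⟩ | ⟨e2, _⟩ <;>
           rcases abs_cases (x1 - 4 * (x2 + x4)) with ⟨e3, _⟩ | ⟨e3, _⟩ <;>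
           rcases abs_cases (x1 - 4 * (x3 + x5)) with ⟨e4, _⟩ | ⟨e4, _⟩ <;> omega
         exact_mod_cast h8
       · have h8 : |pW w - qM (π.symm w)| < |pW w - qM a| := by
           have h9 := htq a.1.1 a.1.2
           have h10 := htq w.1.1 (pv2 (Z.h w.1.1) Z.u w.1.2)
           have h11 : |prW p (e w.1.1) (Z.h w.1.1) Z.u (tf w.1.1) w.1.2 -
               4 * fy p (e w.1.1) (pv2 (Z.h w.1.1) Z.u w.1.2)| + 2 * p.q ≤
               |prW p (e w.1.1) (Z.h w.1.1) Z.u (tf w.1.1) w.1.2 -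
               4 * fy p (e a.1.1) a.1.2| := h7 (tf w.1.1)
           change |prW p (e w.1.1) (Z.h w.1.1) Z.u (tf w.1.1) w.1.2 -
               4 * (fy p (e w.1.1) (pv2 (Z.h w.1.1) Z.u w.1.2) +
                 tf w.1.1 (pv2 (Z.h w.1.1) Z.u w.1.2))| <
               |prW p (e w.1.1) (Z.h w.1.1) Z.u (tf w.1.1) w.1.2 -
               4 * (fy p (e a.1.1) a.1.2 + tf a.1.1 a.1.2)|
           generalize prW p (e w.1.1) (Z.h w.1.1) Z.u (tf w.1.1) w.1.2 = x1 at *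
           generalize fy p (e w.1.1) (pv2 (Z.h w.1.1) Z.u w.1.2) = x2 at *
           generalize fy p (e a.1.1) a.1.2 = x3 at *
           generalize tf w.1.1 (pv2 (Z.h w.1.1) Z.u w.1.2) = x4 at *
           generalize tf a.1.1 a.1.2 = x5 at *
           have hq := (hok a.1.1).q0
           rcases abs_cases (x1 - 4 * x2) with ⟨e1, _⟩ | ⟨e1, _⟩ <;>
           rcases abs_cases (x1 - 4 * x3) with ⟨e2, _⟩ | ⟨e2, _⟩ <;>
           rcases abs_cases (x1 - 4 * (x2 + x4)) with ⟨e3, _⟩ | ⟨e3, _⟩ <;>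
           rcases abs_cases (x1 - 4 * (x3 + x5)) with ⟨e4, _⟩ | ⟨e4, _⟩ <;> omega
         exact_mod_cast h8
   · intro z z' hzz
     obtain ⟨v, hv, hv', hr, hr'⟩ := Z.cov z z' hzz
     have h6 := hlt z z' hzz.lt
     let a : A := ⟨(z', (v, Ke.SE)), hv'⟩
     let w : A := ⟨(z, (v, Ke.R)), ⟨hv, hr⟩⟩
     obtain ⟨h7, h8⟩ := hXMU p (e z') (g z') (e z) (g z) (Z.h z') (Z.h z) Z.u (hok z') (hok z)
       h6.1 h6.2 v hr' hr (tf z) (tf z (v, Ke.R)) (tf z' (nx2 (Z.h z') Z.u (v, Ke.SE)))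
       (tf z' (v, Ke.SE)) (tf z (v, Ke.R)) (htq _ _).1 (htq _ _).2 (htq _ _).1 (htq _ _).2
       (htq _ _).1 (htq _ _).2 (htq _ _).1 (htq _ _).2
     have h9 : |pM a - qW w| ≤ |pM a - qW (π a)| := h7
     have h10 : |pW w - qM a| ≤ |pW w - qM w| := h8
     exact ⟨a, w, rfl, rfl, by exact_mod_cast h9, by exact_mod_cast h10⟩
   · intro a b
     constructor
     · intro h
       exact hsame b.1.1 a h b rfl
     · intro h
       obtain ⟨n, hn⟩ := h.exists_nat_pow_eq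
       rw [← hn]
       exact (hpow n a).symm
   · intro z
     obtain ⟨v, hv⟩ := Z.ne z
     exact ⟨⟨(z, (v, Ke.NW)), hv⟩, rfl⟩

  have hRel : ∀ a b : A, Rel p (e a.1.1) (g a.1.1) (e b.1.1) (g b.1.1) := by
    intro a b
    by_cases hab : a.1.1 = b.1.1
    · rw [hab]; exact Or.inl ⟨rfl, rfl⟩
    · exact Or.inr (hne _ _ hab)
  refine ⟨A, hFA, pM, qM, pW, qW, π, fun a => a.1.1, hCond, ?_, hACD P Z.N Z.h Z.u Z.fin, ?_⟩
  swap
  · intro B hB a
    have hBS : B = 5 * (p.S * (R + 1)) := by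
      have h1 : p.S = D * p0.S := rfl
      rw [hB, h1, hS0, Nat.card_eq_fintype_card]
    rw [hBS]
    have hR1 := hRN a.1.1 _ (hOKN _ _ a.2)
    have hR2 := hRN (π a).1.1 _ (hOKN _ _ (π a).2)
    have hR3 := hRN (π.symm a).1.1 _ (hOKN _ _ (π.symm a).2)
    refine ⟨?_, ?_, ?_, ?_⟩
    · exact prM_abs p (e a.1.1) (g a.1.1) R (Z.h a.1.1) Z.u (hok _) hR a.1.2 hR1.1 hR2.1
    · exact pos_abs p (e a.1.1) (g a.1.1) R (hok _) hR _ _
        (fy_abs p (e a.1.1) (g a.1.1) R (hok _) a.1.2 hR1.2) (htq _ _)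
    · exact prW_abs p (e a.1.1) (g a.1.1) R (Z.h a.1.1) Z.u (tf a.1.1) (hok _) hR (htq _) a.1.2
        hR1.2 hR3.2
    · exact pos_abs p (e a.1.1) (g a.1.1) R (hok _) hR _ _
        (fx_abs p (e a.1.1) (g a.1.1) R (hok _) a.1.2 hR1.1) (htq _ _)
  intro σ hσ
  refine all_btw hCond (fun a => (lvM (e a.1.1) a.1.2.2, sgM a.1.2.2 (tf a.1.1 a.1.2)))
    (fun a => (lvW (e a.1.1) a.1.2.2, sgW a.1.2.2 (tf a.1.1 a.1.2))) ?_ ?_ σ hσ
  · intro a w h1
    have h1' : |pM a - qW w| < |pM a - qW a| := by exact_mod_cast h1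
    exact hPM a.1.2.2 p (e a.1.1) (g a.1.1) (e w.1.1) (g w.1.1) (Z.h a.1.1) Z.u (hok _) (hok _)
      (hRel a w) a.1.2.1 w.1.2 (tf w.1.1 w.1.2) (tf a.1.1 a.1.2) (htq _ _).1 (htq _ _).2
      (htq _ _).1 (htq _ _).2 h1'
  · intro w a h1
    have h1' : |pW w - qM a| < |pW w - qM (π.symm w)| := by exact_mod_cast h1
    exact hPW w.1.2.2 p (e w.1.1) (g w.1.1) (e a.1.1) (g a.1.1) (Z.h w.1.1) Z.u (hok _) (hok _)
      (hRel w a) (tf w.1.1) (htq _) w.1.2.1 a.1.2 (tf a.1.1 a.1.2) (htq _ _).1 (htq _ _).2 h1'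

/-- `RLE` with a bound `B` for the coordinates. -/
def RLB (P : Type) [PartialOrder P] (n : ℕ) (B : ℤ) : Prop :=
    ∃ (pM qM pW qW : Fin n → ℤ), (∀ i, |pM i| ≤ B ∧ |qM i| ≤ B ∧ |pW i| ≤ B ∧ |qW i| ≤ B) ∧
      (∀ i, Function.Injective fun j => |(pM i : ℝ) - (qW j : ℝ)|) ∧
      (∀ i, Function.Injective fun j => |(pW i : ℝ) - (qM j : ℝ)|) ∧
      ∃ f : LowerSet P ≃ {σ : Equiv.Perm (Fin n) // St (fun i j => |(pM i : ℝ) - (qW j : ℝ)|)
          (fun i j => |(pW i : ℝ) - (qM j : ℝ)|) σ},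
        ∀ S T, S ≤ T ↔ ∀ w, |(pW w : ℝ) - (qM ((f T).1.symm w) : ℝ)| ≤
          |(pW w : ℝ) - (qM ((f S).1.symm w) : ℝ)|

/-- From a system to a numbered 1-Euclidean instance. -/
theorem sys4b_thm (hACD : ACD_S) (hPM : ∀ k, PMk k) (hPW : ∀ k, PWk k) (hPIN : PIN2_S)
    (hSAM : SAM2_S) (hE1 : E1_S) (hE2 : E2_S) (hIVM : IVM_S) (hIVW : IVW_S) (hXSA : ∀ k, XSA k)
    (hXDF : ∀ k, XDF k) (hXMU : XMU_S)
    (P : Type) [Fintype P] [PartialOrder P] (Z : Sys P) (R : ℤ) (hR : 0 ≤ R)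
    (hRN : ∀ z, ∀ v ∈ Z.N z, |v.1| ≤ R ∧ |v.2| ≤ R) :
    ∃ n, n ≤ 8 * ∑ z, (Z.N z).ncard ∧ RLB P n (5 * ((8 * (n : ℤ) + 9) *
      (1200 * ((Fintype.card P : ℤ) + 1) * 4 ^ Fintype.card P) * (R + 1))) := by
  obtain ⟨A, hA, pM, qM, pW, qW, π, el, hC, hall, hcard, hbd⟩ := sys3b_thm hACD hPM hPW hPIN hSAM hE1 hE2
    hIVM hIVW hXSA hXDF hXMU P Z R hR hRN
  obtain ⟨f, hf⟩ := hC.main
  let en : A ≃ Fin (Fintype.card A) := Fintype.equivFin A
  let dM : A → A → ℝ := fun a w => ((|pM a - qW w| : ℤ) : ℝ)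
  let dW : A → A → ℝ := fun w a => ((|pW w - qM a| : ℤ) : ℝ)
  have hsub : ∀ σ : Equiv.Perm A, (St dM dW σ ∧ WL dW 1 σ ∧ WL dW σ π) ↔ St dM dW σ := fun σ =>
    ⟨fun h => h.1, fun h => ⟨h, hall σ h⟩⟩
  let f1 : LowerSet P ≃ {σ : Equiv.Perm A // St dM dW σ} := f.trans (Equiv.subtypeEquivRight hsub)
  have hcM : (fun (i j : Fin (Fintype.card A)) => dM (en.symm i) (en.symm j)) =
      fun i j => |(pM (en.symm i) : ℝ) - (qW (en.symm j) : ℝ)| := by
    funext i j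
    change ((|pM (en.symm i) - qW (en.symm j)| : ℤ) : ℝ) = _
    push_cast
    rfl
  have hcW : (fun (i j : Fin (Fintype.card A)) => dW (en.symm i) (en.symm j)) =
      fun i j => |(pW (en.symm i) : ℝ) - (qM (en.symm j) : ℝ)| := by
    funext i j
    change ((|pW (en.symm i) - qM (en.symm j)| : ℤ) : ℝ) = _
    push_cast
    rfl
  have hiM : ∀ i, Function.Injective ((fun (i j : Fin (Fintype.card A)) =>
      dM (en.symm i) (en.symm j)) i) := fun i j k h => en.symm.injective (hC.iM _ h)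
  have hiW : ∀ i, Function.Injective ((fun (i j : Fin (Fintype.card A)) =>
      dW (en.symm i) (en.symm j)) i) := fun i j k h => en.symm.injective (hC.iW _ h)
  have hmain : ∃ f2 : LowerSet P ≃ {σ : Equiv.Perm (Fin (Fintype.card A)) //
      St (fun i j => dM (en.symm i) (en.symm j)) (fun i j => dW (en.symm i) (en.symm j)) σ},
      ∀ S T, S ≤ T ↔ ∀ w, (fun i j => dW (en.symm i) (en.symm j)) w ((f2 T).1.symm w) ≤
        (fun i j => dW (en.symm i) (en.symm j)) w ((f2 S).1.symm w) := by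
    let g2 : {σ : Equiv.Perm A // St dM dW σ} ≃ {σ : Equiv.Perm (Fin (Fintype.card A)) //
        St (fun i j => dM (en.symm i) (en.symm j)) (fun i j => dW (en.symm i) (en.symm j)) σ} :=
      Equiv.subtypeEquiv en.permCongr (fun σ => st_congr en dM dW σ)
    refine ⟨f1.trans g2, ?_⟩
    intro S T
    have h2 : ∀ (S : LowerSet P) (i : Fin (Fintype.card A)),
        en.symm (((f1.trans g2) S).1.symm i) = (f S).1.symm (en.symm i) := by
      intro S i
      exact permCongr_symm' en _ i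
    rw [hf S T]
    constructor
    · intro h i
      change dW (en.symm i) (en.symm (((f1.trans g2) T).1.symm i)) ≤
        dW (en.symm i) (en.symm (((f1.trans g2) S).1.symm i))
      rw [h2, h2]
      exact h (en.symm i)
    · intro h w
      have h3 : dW (en.symm (en w)) (en.symm (((f1.trans g2) T).1.symm (en w))) ≤
        dW (en.symm (en w)) (en.symm (((f1.trans g2) S).1.symm (en w))) := h (en w)
      rw [h2, h2, Equiv.symm_apply_apply] at h3
      exact h3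
  rw [hcM] at hiM hmain
  rw [hcW] at hiW hmain
  refine ⟨Fintype.card A, ?_, fun i => pM (en.symm i), fun i => qM (en.symm i),
    fun i => pW (en.symm i), fun i => qW (en.symm i), ?_, hiM, hiW, hmain⟩
  · rwa [Nat.card_eq_fintype_card] at hcard
  · intro i
    exact hbd _ (by rw [Nat.card_eq_fintype_card]) (en.symm i)

/-- From connected sets of grid points to a 1-Euclidean instance, with a bound. -/
def RLH_S : Prop := ∀ (P : Type) [Fintype P] [PartialOrder P] (M : P → Set Nd) (L : ℕ),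
    (∀ x, (M x).Finite ∧ (M x).Nonempty ∧ Cn (M x) (G0 (M x) fun _ => True)) →
    (∀ x y, ¬ x ≤ y → ¬ y ≤ x → Disjoint (M x) (M y)) →
    (∀ x y, x ⋖ y → (M x ∩ M y).Nonempty) → (∀ x, ∀ v ∈ M x, |v.1| ≤ L ∧ |v.2| ≤ L) →
    ∃ n, n ≤ 56 * ∑ z, (M z).ncard ∧
      RLB P n (10 ^ 6 * (n + 1) * (L + 1) * (Fintype.card P + 1) * 4 ^ Fintype.card P)

theorem rlb_mono {P : Type} [PartialOrder P] {n : ℕ} {B B' : ℤ} (h : B ≤ B') (h1 : RLB P n B) :
    RLB P n B' := by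
  obtain ⟨pM, qM, pW, qW, h2, h3⟩ := h1
  exact ⟨pM, qM, pW, qW, fun i => ⟨(h2 i).1.trans h, (h2 i).2.1.trans h, (h2 i).2.2.1.trans h,
    (h2 i).2.2.2.trans h⟩, h3⟩

/-- The realisation theorem with bounds from the rows of the boards. -/
theorem rlh_thm (hRFC : RFC_S) (hACD : ACD_S) (hPM : ∀ k, PMk k) (hPW : ∀ k, PWk k)
    (hPIN : PIN2_S) (hSAM : SAM2_S)
    (hE1 : E1_S) (hE2 : E2_S) (hIVM : IVM_S) (hIVW : IVW_S) (hXSA : ∀ k, XSA k)
    (hXDF : ∀ k, XDF k) (hXMU : XMU_S)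
    (hTRE : TRE_S) (hREG : REG_S) (hREF : REF_S) : RLH_S := by
  intro P _ _ M L h1 h2 h3 h4
  obtain ⟨Z, hZ⟩ := grid_sys hTRE hREG hREF P M h1 h2 h3
  have hRN : ∀ z, ∀ v ∈ Z.N z, |v.1| ≤ (4 * (L : ℤ) + 3) ∧ |v.2| ≤ (4 * (L : ℤ) + 3) := by
    intro z v hv
    rw [hZ z] at hv
    rcases hv with ⟨h5, h6, h7⟩ | ⟨h5, h7⟩
    · obtain ⟨h8, h9⟩ := h4 z _ h7
      have h8' := abs_le.mp h8
      have h9' := abs_le.mp h9
      constructor <;> rw [abs_le] <;> constructor <;> omega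
    · obtain ⟨h8, h9⟩ := h4 z _ h7
      have h8' := abs_le.mp h8
      have h9' := abs_le.mp h9
      constructor <;> rw [abs_le] <;> constructor <;> omega
  obtain ⟨n, hn, hr⟩ := sys4b_thm hACD hPM hPW hPIN hSAM hE1 hE2 hIVM hIVW hXSA hXDF hXMU P Z
    (4 * (L : ℤ) + 3) (by positivity) hRN
  refine ⟨n, hn.trans ?_, rlb_mono ?_ hr⟩
  · have : ∑ z, (Z.N z).ncard ≤ ∑ z, 7 * (M z).ncard :=
      Finset.sum_le_sum fun z _ => by rw [hZ z]; exact hRFC _ (h1 z).1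
    rw [← Finset.mul_sum] at this
    omega
  · have h5 : (0 : ℤ) ≤ ((L : ℤ) + 1) * ((Fintype.card P : ℤ) + 1) * 4 ^ Fintype.card P := by
      positivity
    have h6 : 5 * ((8 * (n : ℤ) + 9) * (1200 * ((Fintype.card P : ℤ) + 1) * 4 ^ Fintype.card P) *
        (4 * (L : ℤ) + 3 + 1)) = (24000 * (8 * (n : ℤ) + 9)) *
        (((L : ℤ) + 1) * ((Fintype.card P : ℤ) + 1) * 4 ^ Fintype.card P) := by ring
    have h7 : (10 : ℤ) ^ 6 * (n + 1) * (L + 1) * (Fintype.card P + 1) * 4 ^ Fintype.card P =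
        (10 ^ 6 * ((n : ℤ) + 1)) *
        (((L : ℤ) + 1) * ((Fintype.card P : ℤ) + 1) * 4 ^ Fintype.card P) := by ring
    rw [h6, h7]
    refine mul_le_mul_of_nonneg_right ?_ h5
    have : (0 : ℤ) ≤ n := Int.natCast_nonneg _
    linarith

end Pool.NTC
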