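import Pool.Agent.H82.NET.Stmts

/-!
# Board `ntc`: ribbons of grid trees for 1-Euclidean instances

As board `net`, with additional corners (jogs) on the horizontal sides and explicit positions:
`fx` is the nominal abscissa of the vertical edge of a before corner (position of the woman), `fy`
the nominal height of its horizontal edge (position of the man); actual positions are nominal
positions plus ties `t` with `0 ≤ 8 t < q`.  `prM`, `prW` are the preference points; everything is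
multiplied by 4.
-/

set_option autoImplicit false

namespace Pool.NTC

open Pool.NET

/-- Kinds of before corners. -/
inductive Ke : Type
  | NW | SE | R | L | T | B | J1 | J2 | J3 | J4

/-- The before corners which exist. -/
def OK2 (N : Set Nd) (h u : Nd → Prop) : Nd × Ke → Prop
  | (v, Ke.NW) => v ∈ N
  | (v, Ke.SE) => v ∈ N
  | (v, Ke.J1) => v ∈ N
  | (v, Ke.J3) => v ∈ N
  | (v, Ke.R) => v ∈ N ∧ ¬ h v
  | (v, Ke.J2) => v ∈ N ∧ h v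
  | (v, Ke.L) => v ∈ N ∧ ¬ h (v.1 - 1, v.2)
  | (v, Ke.J4) => v ∈ N ∧ h (v.1 - 1, v.2)
  | (v, Ke.T) => v ∈ N ∧ ¬ u v
  | (v, Ke.B) => v ∈ N ∧ ¬ u (v.1, v.2 - 1)

open Classical in
/-- The next before corner. -/
noncomputable def nx2 (h u : Nd → Prop) : Nd × Ke → Nd × Ke
  | (v, Ke.SE) => if h v then (v, Ke.J2) else (v, Ke.R)
  | (v, Ke.J2) => ((v.1 + 1, v.2), Ke.J3)
  | (v, Ke.J3) => if u (v.1, v.2 - 1) then ((v.1, v.2 - 1), Ke.NW) else (v, Ke.B)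
  | (v, Ke.L) => (v, Ke.J3)
  | (v, Ke.NW) => if h (v.1 - 1, v.2) then (v, Ke.J4) else (v, Ke.L)
  | (v, Ke.J4) => ((v.1 - 1, v.2), Ke.J1)
  | (v, Ke.J1) => if u v then ((v.1, v.2 + 1), Ke.SE) else (v, Ke.T)
  | (v, Ke.R) => (v, Ke.J1)
  | (v, Ke.T) => (v, Ke.NW)
  | (v, Ke.B) => (v, Ke.SE)

open Classical in
/-- The previous before corner. -/
noncomputable def pv2 (h u : Nd → Prop) : Nd × Ke → Nd × Ke
  | (v, Ke.SE) => if u (v.1, v.2 - 1) then ((v.1, v.2 - 1), Ke.J1) else (v, Ke.B)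
  | (v, Ke.NW) => if u v then ((v.1, v.2 + 1), Ke.J3) else (v, Ke.T)
  | (v, Ke.T) => (v, Ke.J1)
  | (v, Ke.B) => (v, Ke.J3)
  | (v, Ke.R) => (v, Ke.SE)
  | (v, Ke.L) => (v, Ke.NW)
  | (v, Ke.J1) => if h v then ((v.1 + 1, v.2), Ke.J4) else (v, Ke.R)
  | (v, Ke.J3) => if h (v.1 - 1, v.2) then ((v.1 - 1, v.2), Ke.J2) else (v, Ke.L)
  | (v, Ke.J2) => (v, Ke.SE)
  | (v, Ke.J4) => (v, Ke.NW)

/-- Common parameters: unit `q`, width `W` of the clusters, distance `M` of the clusters from the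
column, distance `S` of the columns and of the rows. -/
structure Par where
  q : ℤ
  W : ℤ
  M : ℤ
  S : ℤ

/-- Conditions for the parameters and for the half width `e` and the cap offset `g` of an element. -/
structure POk (p : Par) (e g : ℤ) : Prop where
  q0 : 0 < p.q
  gq : 10 * p.q ≤ g
  gW : g + 10 * p.q ≤ p.W
  We : 8 * p.W ≤ e
  eM : 5 * e ≤ p.M
  MS : 3 * p.M ≤ p.S

/-- Nominal abscissa of the vertical edge. -/
def fx (p : Par) (e g : ℤ) : Nd × Ke → ℤ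
  | (v, Ke.NW) => p.S * v.1 - e
  | (v, Ke.SE) => p.S * v.1 + e
  | (v, Ke.T) => p.S * v.1 + e
  | (v, Ke.B) => p.S * v.1 - e
  | (v, Ke.R) => p.S * v.1 + p.M + g
  | (v, Ke.L) => p.S * v.1 - p.M - g
  | (v, Ke.J1) => p.S * v.1 + p.M - 5 * p.q
  | (v, Ke.J2) => p.S * v.1 + p.M + p.W
  | (v, Ke.J3) => p.S * v.1 - p.M + 5 * p.q
  | (v, Ke.J4) => p.S * v.1 - p.M - p.W

/-- Nominal height of the horizontal edge. -/
def fy (p : Par) (e : ℤ) : Nd × Ke → ℤ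
  | (v, Ke.NW) => p.S * v.2 + e
  | (v, Ke.J4) => p.S * v.2 + e
  | (v, Ke.J1) => p.S * v.2 + e
  | (v, Ke.R) => p.S * v.2 + e
  | (v, Ke.SE) => p.S * v.2 - e
  | (v, Ke.J2) => p.S * v.2 - e
  | (v, Ke.J3) => p.S * v.2 - e
  | (v, Ke.L) => p.S * v.2 - e
  | (v, Ke.T) => p.S * v.2 + 2 * e
  | (v, Ke.B) => p.S * v.2 - 2 * e

/-- Preference points of the men (times 4). -/
noncomputable def prM (p : Par) (e g : ℤ) (h u : Nd → Prop) : Nd × Ke → ℤ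
  | (v, Ke.R) => 4 * (fx p e g (v, Ke.R) - p.q) + 1
  | (v, Ke.L) => 4 * (fx p e g (v, Ke.L) + p.q) + 1
  | (v, Ke.SE) => 2 * (fx p e g (v, Ke.SE) + fx p e g (nx2 h u (v, Ke.SE)) - 2 * p.W) + 1
  | (v, Ke.J2) => 2 * (fx p e g (v, Ke.J2) + fx p e g (nx2 h u (v, Ke.J2)) - 2 * p.W) + 1
  | (v, Ke.NW) => 2 * (fx p e g (v, Ke.NW) + fx p e g (nx2 h u (v, Ke.NW)) + 2 * p.W) + 1
  | (v, Ke.J4) => 2 * (fx p e g (v, Ke.J4) + fx p e g (nx2 h u (v, Ke.J4)) + 2 * p.W) + 1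
  | (v, Ke.J3) => 2 * (fx p e g (v, Ke.J3) + fx p e g (nx2 h u (v, Ke.J3)) - 2 * p.q) + 1
  | (v, Ke.B) => 4 * (fx p e g (v, Ke.B) - p.q) + 1
  | (v, Ke.J1) => 2 * (fx p e g (v, Ke.J1) + fx p e g (nx2 h u (v, Ke.J1)) + 2 * p.q) + 1
  | (v, Ke.T) => 4 * (fx p e g (v, Ke.T) + p.q) + 1

/-- Preference points of the women (times 4); `t`: ties of the men. -/
noncomputable def prW (p : Par) (e : ℤ) (h u : Nd → Prop) (t : Nd × Ke → ℤ) : Nd × Ke → ℤ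
  | (v, Ke.R) => 4 * (p.S * v.2 - e) + 1
  | (v, Ke.L) => 4 * (p.S * v.2 + e + p.q) + 1
  | (v, Ke.SE) => 2 * (fy p e (pv2 h u (v, Ke.SE)) + fy p e (v, Ke.SE) - 2 * p.q) + 1
  | (v, Ke.T) => 2 * (fy p e (pv2 h u (v, Ke.T)) + fy p e (v, Ke.T) - 2 * p.q) + 1
  | (v, Ke.NW) => 2 * (fy p e (pv2 h u (v, Ke.NW)) + fy p e (v, Ke.NW) + 2 * p.q) + 1
  | (v, Ke.B) => 2 * (fy p e (pv2 h u (v, Ke.B)) + fy p e (v, Ke.B) + 2 * p.q) + 1
  | (v, Ke.J1) => 4 * (fy p e (pv2 h u (v, Ke.J1)) + t (pv2 h u (v, Ke.J1))) + 1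
  | (v, Ke.J2) => 4 * (fy p e (pv2 h u (v, Ke.J2)) + t (pv2 h u (v, Ke.J2))) + 1
  | (v, Ke.J3) => 4 * (fy p e (pv2 h u (v, Ke.J3)) + t (pv2 h u (v, Ke.J3))) + 1
  | (v, Ke.J4) => 4 * (fy p e (pv2 h u (v, Ke.J4)) + t (pv2 h u (v, Ke.J4))) + 1

/-- Nominal range (with slack) of the men's balls: lower end. -/
noncomputable def lo (p : Par) (e g : ℤ) (h u : Nd → Prop) : Nd × Ke → ℤ
  | (v, Ke.SE) => fx p e g (v, Ke.SE) - 2 * p.W - p.q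
  | (v, Ke.J2) => fx p e g (v, Ke.J2) - 2 * p.W - p.q
  | (v, Ke.J3) => fx p e g (v, Ke.J3) - 3 * p.q
  | (v, Ke.B) => fx p e g (v, Ke.B) - 2 * e - 3 * p.q
  | (v, Ke.L) => fx p e g (v, Ke.L) - g - 4 * p.q
  | (v, Ke.NW) => fx p e g (nx2 h u (v, Ke.NW)) - p.q
  | (v, Ke.J4) => fx p e g (nx2 h u (v, Ke.J4)) - p.q
  | (v, Ke.J1) => fx p e g (nx2 h u (v, Ke.J1)) - p.q
  | (v, Ke.T) => fx p e g (nx2 h u (v, Ke.T)) - p.q
  | (v, Ke.R) => fx p e g (nx2 h u (v, Ke.R)) - p.q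

/-- Nominal range (with slack) of the men's balls: upper end. -/
noncomputable def hi (p : Par) (e g : ℤ) (h u : Nd → Prop) : Nd × Ke → ℤ
  | (v, Ke.SE) => fx p e g (nx2 h u (v, Ke.SE)) + p.q
  | (v, Ke.J2) => fx p e g (nx2 h u (v, Ke.J2)) + p.q
  | (v, Ke.J3) => fx p e g (nx2 h u (v, Ke.J3)) + p.q
  | (v, Ke.B) => fx p e g (nx2 h u (v, Ke.B)) + p.q
  | (v, Ke.L) => fx p e g (nx2 h u (v, Ke.L)) + p.q
  | (v, Ke.NW) => fx p e g (v, Ke.NW) + 2 * p.W + p.q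
  | (v, Ke.J4) => fx p e g (v, Ke.J4) + 2 * p.W + p.q
  | (v, Ke.J1) => fx p e g (v, Ke.J1) + 3 * p.q
  | (v, Ke.T) => fx p e g (v, Ke.T) + 2 * e + 3 * p.q
  | (v, Ke.R) => fx p e g (v, Ke.R) + g + 4 * p.q

/-- Nominal range (with slack) of the women's balls: lower end. -/
noncomputable def jl (p : Par) (e : ℤ) (h u : Nd → Prop) : Nd × Ke → ℤ
  | (v, Ke.SE) => fy p e (pv2 h u (v, Ke.SE)) - 3 * p.q
  | (v, Ke.T) => fy p e (pv2 h u (v, Ke.T)) - 3 * p.q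
  | (v, Ke.NW) => fy p e (v, Ke.NW) - p.q
  | (v, Ke.B) => fy p e (v, Ke.B) - p.q
  | (v, Ke.R) => p.S * v.2 - 3 * e - p.q
  | (v, Ke.L) => p.S * v.2 - e - p.q
  | (v, Ke.J1) => fy p e (v, Ke.J1) - p.q
  | (v, Ke.J2) => fy p e (v, Ke.J2) - p.q
  | (v, Ke.J3) => fy p e (v, Ke.J3) - p.q
  | (v, Ke.J4) => fy p e (v, Ke.J4) - p.q

/-- Nominal range (with slack) of the women's balls: upper end. -/
noncomputable def jh (p : Par) (e : ℤ) (h u : Nd → Prop) : Nd × Ke → ℤ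
  | (v, Ke.SE) => fy p e (v, Ke.SE) + p.q
  | (v, Ke.T) => fy p e (v, Ke.T) + p.q
  | (v, Ke.NW) => fy p e (pv2 h u (v, Ke.NW)) + 3 * p.q
  | (v, Ke.B) => fy p e (pv2 h u (v, Ke.B)) + 3 * p.q
  | (v, Ke.R) => p.S * v.2 + e + p.q
  | (v, Ke.L) => p.S * v.2 + 3 * e + 3 * p.q
  | (v, Ke.J1) => fy p e (v, Ke.J1) + p.q
  | (v, Ke.J2) => fy p e (v, Ke.J2) + p.q
  | (v, Ke.J3) => fy p e (v, Ke.J3) + p.q
  | (v, Ke.J4) => fy p e (v, Ke.J4) + p.q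

end Pool.NTC
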