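import Pool.Agent.H82.NTC.Stmts

set_option autoImplicit false

namespace Pool.NTC

open Pool.NET

theorem rank82 (P : Type) [Finite P] [PartialOrder P] : ∃ (ρ : P → ℕ) (K : ℕ),
    Function.Injective ρ ∧ (∀ p q, p < q → ρ p < ρ q) ∧ ∀ p, ρ p < K := by
  classical
  have : Fintype P := Fintype.ofFinite P
  obtain ⟨ρ0, hρ0⟩ : ∃ ρ0 : P → ℕ, ∀ p q : P, p < q → ρ0 p < ρ0 q := by
    refine ⟨fun p => (Finset.univ.filter fun q => q < p).card, ?_⟩
    intro p q hpq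
    refine Finset.card_lt_card ?_
    rw [Finset.ssubset_iff_of_subset]
    · exact ⟨p, by simp [hpq], by simp⟩
    · intro r hr
      simp only [Finset.mem_filter, Finset.mem_univ, true_and] at hr ⊢
      exact hr.trans hpq
  let c : ℕ := Fintype.card P
  let en : P → ℕ := fun p => (Fintype.equivFin P p).1
  have hen : ∀ p, en p < c := fun p => (Fintype.equivFin P p).2
  have heni : Function.Injective en := fun p q h =>
    (Fintype.equivFin P).injective (Fin.ext h)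
  have key : ∀ p q : P, ρ0 p < ρ0 q → ρ0 p * c + en p < ρ0 q * c + en q := by
    intro p q h
    have h1 : (ρ0 p + 1) * c ≤ ρ0 q * c := Nat.mul_le_mul_right c h
    have h2 : (ρ0 p + 1) * c = ρ0 p * c + c := by ring
    have h3 := hen p
    omega
  have hb : BddAbove (Set.range fun p => ρ0 p * c + en p) := (Set.finite_range _).bddAbove
  obtain ⟨K, hK⟩ := hb
  refine ⟨fun p => ρ0 p * c + en p, K + 1, ?_, fun p q h => key p q (hρ0 p q h),
    fun p => Nat.lt_succ_of_le (hK ⟨p, rfl⟩)⟩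
  intro p q h
  have h' : ρ0 p * c + en p = ρ0 q * c + en q := h
  rcases lt_trichotomy (ρ0 p) (ρ0 q) with h1 | h1 | h1
  · exact absurd h' (key p q h1).ne
  · rw [h1] at h'
    exact heni (by omega)
  · exact absurd h'.symm (key q p h1).ne

theorem prm82_thm : PRM_S := by
  intro P _ _ T
  obtain ⟨ρ, K, hi, hm, hK⟩ := rank82 P
  obtain ⟨q, hq0, hqT⟩ : ∃ q : ℤ, 0 < q ∧ 8 * T < q := ⟨8 * |T| + 1, by positivity, by
    have := le_abs_self T; omega⟩
  have hE0 : 0 < 80 * q * ((K : ℤ) + 1) := by positivity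
  have key : ∀ z z', ρ z < ρ z' → 4 * (80 * q * ((K : ℤ) + 1) * 4 ^ (K - ρ z')) ≤
      80 * q * ((K : ℤ) + 1) * 4 ^ (K - ρ z) ∧
      10 * q * ((ρ z : ℤ) + 1) + 10 * q ≤ 10 * q * ((ρ z' : ℤ) + 1) := by
    intro z z' h
    constructor
    · have h1 : (4 : ℤ) ^ (K - ρ z' + 1) ≤ 4 ^ (K - ρ z) :=
        pow_le_pow_right₀ (by norm_num) (by have := hK z'; omega)
      have h2 := mul_le_mul_of_nonneg_left h1 hE0.le
      calc 4 * (80 * q * ((K : ℤ) + 1) * 4 ^ (K - ρ z')) =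
          80 * q * ((K : ℤ) + 1) * 4 ^ (K - ρ z' + 1) := by ring
        _ ≤ _ := h2
    · have h1 : (ρ z : ℤ) + 1 ≤ ρ z' := by exact_mod_cast h
      nlinarith
  refine ⟨⟨q, 10 * q * ((K : ℤ) + 1), 5 * (80 * q * ((K : ℤ) + 1) * 4 ^ K),
    15 * (80 * q * ((K : ℤ) + 1) * 4 ^ K)⟩, fun z => 80 * q * ((K : ℤ) + 1) * 4 ^ (K - ρ z),
    fun z => 10 * q * ((ρ z : ℤ) + 1), hqT, ?_, fun z z' h => key z z' (hm z z' h), ?_⟩
  · intro z
    have hz : (ρ z : ℤ) + 1 ≤ K := by exact_mod_cast hK z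
    have h1 : (1 : ℤ) ≤ 4 ^ (K - ρ z) := one_le_pow₀ (by norm_num)
    have h2 : (4 : ℤ) ^ (K - ρ z) ≤ 4 ^ K := pow_le_pow_right₀ (by norm_num) (Nat.sub_le _ _)
    refine ⟨hq0, ?_, ?_, ?_, ?_, ?_⟩
    · change 10 * q ≤ 10 * q * ((ρ z : ℤ) + 1)
      have : (0 : ℤ) ≤ ρ z := Int.natCast_nonneg _
      nlinarith
    · change 10 * q * ((ρ z : ℤ) + 1) + 10 * q ≤ 10 * q * ((K : ℤ) + 1)
      nlinarith
    · change 8 * (10 * q * ((K : ℤ) + 1)) ≤ 80 * q * ((K : ℤ) + 1) * 4 ^ (K - ρ z)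
      nlinarith
    · change 5 * (80 * q * ((K : ℤ) + 1) * 4 ^ (K - ρ z)) ≤ 5 * (80 * q * ((K : ℤ) + 1) * 4 ^ K)
      nlinarith
    · change 3 * (5 * (80 * q * ((K : ℤ) + 1) * 4 ^ K)) ≤ 15 * (80 * q * ((K : ℤ) + 1) * 4 ^ K)
      linarith
  · intro z z' h
    have h1 : ρ z ≠ ρ z' := fun h2 => h (hi h2)
    rcases lt_or_gt_of_ne h1 with h2 | h2
    · exact Or.inr (key z z' h2)
    · exact Or.inl (key z' z h2)

end Pool.NTC
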