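import Pool.Agent.H82.NTC.ASM
import Pool.Agent.H3.NET.TOP
import Pool.Agent.H78.NET.TPC
import Pool.Agent.H26.NET.TPD
import Pool.Agent.H71.NET.TPF
import Pool.Agent.H18.NET.TRE
import Pool.Agent.H22.NET.REG
import Pool.Agent.H89.NET.REF
import Pool.Agent.H31.NET.ELB
import Pool.Agent.H40.NTC.ACD
import Pool.Agent.H14.NTC.E1
import Pool.Agent.H93.NTC.E2
import Pool.Agent.H18.NTC.IVM
import Pool.Agent.H4.NTC.IVW
import Pool.Agent.H45.NTC.PIN2
import Pool.Agent.H12.NTC.PMB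
import Pool.Agent.H38.NTC.PMJ1
import Pool.Agent.H85.NTC.PMJ2
import Pool.Agent.H48.NTC.PMJ3
import Pool.Agent.H62.NTC.PMJ4
import Pool.Agent.H22.NTC.PML
import Pool.Agent.H18.NTC.PMNW
import Pool.Agent.H14.NTC.PMR
import Pool.Agent.H45.NTC.PMSE
import Pool.Agent.H55.NTC.PMT
import Pool.Agent.H82.NTC.PRM
import Pool.Agent.H53.NTC.PWB
import Pool.Agent.H10.NTC.PWJ1
import Pool.Agent.H24.NTC.PWJ2
import Pool.Agent.H78.NTC.PWJ3
import Pool.Agent.H97.NTC.PWJ4
import Pool.Agent.H25.NTC.PWL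
import Pool.Agent.H51.NTC.PWNW
import Pool.Agent.H71.NTC.PWR
import Pool.Agent.H44.NTC.PWSE
import Pool.Agent.H26.NTC.PWT
import Pool.Agent.H31.NTC.RFC
import Pool.Agent.H51.NTC.SAM2
import Pool.Agent.H31.NTC.XAB
import Pool.Agent.H55.NTC.XAJ1
import Pool.Agent.H48.NTC.XAJ2
import Pool.Agent.H31.NTC.XAJ3
import Pool.Agent.H93.NTC.XAJ4
import Pool.Agent.H22.NTC.XAL
import Pool.Agent.H74.NTC.XANW
import Pool.Agent.H99.NTC.XAR
import Pool.Agent.H71.NTC.XASE
import Pool.Agent.H31.NTC.XAT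
import Pool.Agent.H1.NTC.XDB
import Pool.Agent.H31.NTC.XDJ1
import Pool.Agent.H24.NTC.XDJ2
import Pool.Agent.H1.NTC.XDJ3
import Pool.Agent.H52.NTC.XDJ4
import Pool.Agent.H53.NTC.XDL
import Pool.Agent.H44.NTC.XDNW
import Pool.Agent.H54.NTC.XDR
import Pool.Agent.H89.NTC.XDSE
import Pool.Agent.H3.NTC.XDT
import Pool.Agent.H72.NTC.XMU

/-!
# Board `ntc`: the final theorems
-/

set_option autoImplicit false

namespace Pool.NTC

open Pool.NET

theorem xa_all : ∀ k, XSA k := by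
  intro k
  cases k
  · exact xanw_thm
  · exact xase_thm
  · exact xar_thm
  · exact xal_thm
  · exact xat_thm
  · exact xab_thm
  · exact xaj1_thm
  · exact xaj2_thm
  · exact xaj3_thm
  · exact xaj4_thm

theorem xd_all : ∀ k, XDF k := by
  intro k
  cases k
  · exact xdnw_thm
  · exact xdse_thm
  · exact xdr_thm
  · exact xdl_thm
  · exact xdt_thm
  · exact xdb_thm
  · exact xdj1_thm
  · exact xdj2_thm
  · exact xdj3_thm
  · exact xdj4_thm

theorem pm_all : ∀ k, PMk k := by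
  intro k
  cases k
  · exact pmnw_thm
  · exact pmse_thm
  · exact pmr_thm
  · exact pml_thm
  · exact pmt_thm
  · exact pmb_thm
  · exact pmj1_thm
  · exact pmj2_thm
  · exact pmj3_thm
  · exact pmj4_thm

theorem pw_all : ∀ k, PWk k := by
  intro k
  cases k
  · exact pwnw_thm
  · exact pwse_thm
  · exact pwr_thm
  · exact pwl_thm
  · exact pwt_thm
  · exact pwb_thm
  · exact pwj1_thm
  · exact pwj2_thm
  · exact pwj3_thm
  · exact pwj4_thm

/-- The realisation theorem. -/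
theorem rlg_main : RLG_S :=
  rlg_thm rfc_thm acd_thm pm_all pw_all pin2_thm (sam2_thm elb_thm) e1_thm e2_thm ivm_thm ivw_thm xa_all xd_all xmu_thm prm82_thm
    tre_thm reg_thm ref_thm

/-- From plane sets to sets of grid points. -/
theorem top_main : TOP_S := top_thm tpc_thm tpf_thm tpd_thm

end Pool.NTC
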