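import Pool.Agent.H82.NTC.ASMB
import Pool.Agent.H82.NTC.Fin

/-!
# Board `ntc`: the final theorems
-/

set_option autoImplicit false

namespace Pool.NTC

open Pool.NET

/-- The realisation theorem with bounds. -/
theorem rlh_main : RLH_S :=
  rlh_thm rfc_thm acd_thm pm_all pw_all pin2_thm (sam2_thm elb_thm) e1_thm e2_thm ivm_thm ivw_thm xa_all xd_all xmu_thm
    tre_thm reg_thm ref_thm

end Pool.NTC
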