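import Pool.Agent.H82.NTC.Stmts

/-!
# Board `ntc`: potentials

If a woman is nearer to the preference point of a man than his own position, she has a smaller
potential than his own one; the same for the women.  The potentials are lexicographic: level, then
plus or minus the tie.
-/

set_option autoImplicit false

namespace Pool.NTC

open Pool.NET

/-- Level of a woman for the men. -/
def lvM (e : ℤ) : Ke → ℤ
  | Ke.NW => -e
  | Ke.SE => -e
  | Ke.T => -e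
  | Ke.B => -e
  | Ke.R => 0
  | Ke.L => 0
  | Ke.J1 => 0
  | Ke.J2 => 0
  | Ke.J3 => 0
  | Ke.J4 => 0

/-- Signed tie for the men. -/
def sgM : Ke → ℤ → ℤ
  | Ke.SE, t => -t
  | Ke.T, t => -t
  | Ke.J2, t => -t
  | Ke.J3, t => -t
  | Ke.L, t => -t
  | Ke.NW, t => t
  | Ke.B, t => t
  | Ke.J1, t => t
  | Ke.J4, t => t
  | Ke.R, t => t

/-- Level of a man for the women. -/
def lvW (e : ℤ) : Ke → ℤ
  | Ke.T => -(2 * e)
  | Ke.B => -(2 * e)
  | Ke.NW => -e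
  | Ke.SE => -e
  | Ke.R => -e
  | Ke.L => -e
  | Ke.J1 => -e
  | Ke.J2 => -e
  | Ke.J3 => -e
  | Ke.J4 => -e

/-- Signed tie for the women. -/
def sgW : Ke → ℤ → ℤ
  | Ke.SE, t => t
  | Ke.J2, t => t
  | Ke.J3, t => t
  | Ke.L, t => t
  | Ke.T, t => t
  | Ke.NW, t => -t
  | Ke.J4, t => -t
  | Ke.J1, t => -t
  | Ke.R, t => -t
  | Ke.B, t => -t

/-- The relation between the parameters of two elements. -/
def Rel (p : Par) (e g e' g' : ℤ) : Prop :=
  (e = e' ∧ g = g') ∨ (4 * e ≤ e' ∧ g' + 10 * p.q ≤ g) ∨ (4 * e' ≤ e ∧ g + 10 * p.q ≤ g')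

/-- PM k: potential of the women for the men of kind `k`. -/
def PMk (k : Ke) : Prop := ∀ (p : Par) (e g e' g' : ℤ) (h u : Nd → Prop), POk p e g →
  POk p e' g' → Rel p e g e' g' → ∀ (v : Nd) (w : Nd × Ke) (s t : ℤ), 0 ≤ s → 8 * s < p.q →
  0 ≤ t → 8 * t < p.q →
  |prM p e g h u (v, k) - 4 * (fx p e' g' w + s)| <
    |prM p e g h u (v, k) - 4 * (fx p e g (v, k) + t)| →
  lvM e' w.2 < lvM e k ∨ (lvM e' w.2 = lvM e k ∧ sgM w.2 s < sgM k t)

/-- PW k: potential of the men for the women of kind `k`. -/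
def PWk (k : Ke) : Prop := ∀ (p : Par) (e g e' g' : ℤ) (h u : Nd → Prop), POk p e g →
  POk p e' g' → Rel p e g e' g' → ∀ tt : Nd × Ke → ℤ, (∀ b, 0 ≤ tt b ∧ 8 * tt b < p.q) →
  ∀ (v : Nd) (a : Nd × Ke) (s : ℤ), 0 ≤ s → 8 * s < p.q →
  |prW p e h u tt (v, k) - 4 * (fy p e' a + s)| <
    |prW p e h u tt (v, k) - 4 * (fy p e (pv2 h u (v, k)) + tt (pv2 h u (v, k)))| →
  lvW e' a.2 < lvW e (pv2 h u (v, k)).2 ∨
    (lvW e' a.2 = lvW e (pv2 h u (v, k)).2 ∧
      sgW a.2 s < sgW (pv2 h u (v, k)).2 (tt (pv2 h u (v, k))))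

end Pool.NTC
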